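import Pool.Agent.W866.TC.Main
import Pool.Agent.W826.TC.Ext
import Pool.Agent.W826.TC.Count
import Pool.Agent.W826.TC.Refl
import Pool.Agent.W976.TC.Dec
import Pool.Agent.W976.TC.Extend
import Pool.Agent.W74.TC.Zfc

/-!
# Consistently, some Cantor set has translates meeting all non-meagre sets in non-meagre sets

`Translates` is the statement of the problem: there is a Cantor set `K` in the real line such
that for every non-meagre `X` there is `t` for which `K ∩ (X + t)` is non-meagre in `K`.

* In ZFC, the combinatorial principle `Star` on binary sequences implies `Translates`.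
* There is a forcing notion `P` (a set of conditions) all of whose conditions force `Star`:
  `StarHolds P` is the sentence `Star` of the forcing language of `P`, obtained from `Star` by
  replacing the quantifiers over binary sequences, over sequences of sets of nodes and over sets
  of binary sequences by quantifiers over names.

So `Translates` holds in the forcing extensions by `P`, and it is consistent with ZFC.
-/

set_option autoImplicit false

namespace Pool.Agent.Results.MP_72b52d_lc.TranslatesForced

open Pool.Agent.W866.TC

theorem result : (Star → Translates) ∧
    ∃ (P : Type) (_ : Preorder P), Nonempty P ∧ ∀ p : P, p ∈ StarHolds P := by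
  refine ⟨Pool.Agent.W74.TC.zfc, TP Wc (Set ℕ), inferInstance,
    ⟨mk isR_empty (valid_triv _)⟩, fun p => ?_⟩
  exact star_forced (fun W I _ => Pool.Agent.W976.TC.ctbl W I)
    (fun W I _ => Pool.Agent.W976.TC.dec W I (Pool.Agent.W976.TC.ctbl W I))
    Pool.Agent.W826.TC.ext Pool.Agent.W826.TC.hit2
    (fun W I _ => Pool.Agent.W976.TC.extend W I Pool.Agent.W826.TC.ext)
    (Pool.Agent.W826.TC.count (Pool.Agent.W976.TC.ctbl _ _)) Pool.Agent.W826.TC.refl p

end Pool.Agent.Results.MP_72b52d_lc.TranslatesForced
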